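import Pool.Agent.U36.BA.Core

/-!
Global approximations of adelic points.
-/

set_option autoImplicit false
set_option linter.unusedSectionVars false

open IsDedekindDomain NumberField WithZero Polynomial Filter Topology

namespace Pool.Agent.U36.CM

open Pool.Agent.U36.BA

variable {K : Type} [Field K] [NumberField K]

lemma val_int_le (v : HeightOneSpectrum (𝓞 K)) (q : ℤ) : v.valuation K (q : K) ≤ 1 := by
  have e : algebraMap (𝓞 K) K (q : 𝓞 K) = (q : K) := map_intCast _ _
  rw [← e]
  exact v.valuation_le_one _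

lemma val_int_ne (v : HeightOneSpectrum (𝓞 K)) {q : ℤ} (hq : q ≠ 0) : v.valuation K (q : K) ≠ 0 :=
  (Valuation.ne_zero_iff _).2 (Int.cast_ne_zero.2 hq)

/-- a common denominator for a family which is integral at almost all places -/
lemma exists_den (x : ∀ v : HeightOneSpectrum (𝓞 K), v.adicCompletion K)
    (hx : {v : HeightOneSpectrum (𝓞 K) | 1 < Valued.v (x v)}.Finite) :
    ∃ D : ℤ, D ≠ 0 ∧ ∀ v : HeightOneSpectrum (𝓞 K), v.valuation K (D : K) * Valued.v (x v) ≤ 1 := by
  classical
  have hex : ∀ v : HeightOneSpectrum (𝓞 K), ∃ q : ℤ, q ≠ 0 ∧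
      v.valuation K (q : K) * Valued.v (x v) ≤ 1 := by
    intro v
    by_cases h0 : Valued.v (x v) = 0
    · exact ⟨1, one_ne_zero, by rw [h0, mul_zero]; exact zero_le⟩
    · obtain ⟨q, hq0, hq⟩ := exists_small v (γ := (Valued.v (x v))⁻¹) (inv_ne_zero h0)
      refine ⟨q, hq0, ?_⟩
      calc v.valuation K (q : K) * Valued.v (x v) ≤ (Valued.v (x v))⁻¹ * Valued.v (x v) :=
            mul_le_mul_left hq.le _
        _ = 1 := inv_mul_cancel₀ h0
  choose q hq0 hq using hex
  refine ⟨∏ v ∈ hx.toFinset, q v, Finset.prod_ne_zero_iff.2 fun v _ => hq0 v, fun v => ?_⟩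
  by_cases hv : v ∈ hx.toFinset
  · rw [← Finset.mul_prod_erase _ _ hv]
    push_cast
    rw [map_mul, mul_right_comm]
    refine mul_le_one' (hq v) ?_
    have := val_int_le v (∏ w ∈ hx.toFinset.erase v, q w)
    push_cast at this
    exact this
  · have h1 : Valued.v (x v) ≤ 1 := by
      by_contra h
      exact hv (hx.mem_toFinset.2 (not_le.1 h))
    exact mul_le_one' (val_int_le v _) h1

/-- strong approximation for the affine line -/
theorem strong_approx (x : ∀ v : HeightOneSpectrum (𝓞 K), v.adicCompletion K) (D : ℤ) (hD0 : D ≠ 0)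
    (hD : ∀ v : HeightOneSpectrum (𝓞 K), v.valuation K (D : K) * Valued.v (x v) ≤ 1) (q : ℤ)
    (hq : q ≠ 0) : ∃ y : K, ∀ v : HeightOneSpectrum (𝓞 K),
      Valued.v (x v - algebraMap K (v.adicCompletion K) y) ≤ v.valuation K (q : K) := by
  classical
  set a : ℤ := D * q with ha
  have ha0 : a ≠ 0 := mul_ne_zero hD0 hq
  have haO : (a : 𝓞 K) ≠ 0 := Int.cast_ne_zero.2 ha0
  have hDK : (D : K) ≠ 0 := Int.cast_ne_zero.2 hD0
  have hT : {v : HeightOneSpectrum (𝓞 K) | v.valuation K (a : K) ≠ 1}.Finite :=
    finite_ne_one (Int.cast_ne_zero.2 ha0)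
  set T : Finset (HeightOneSpectrum (𝓞 K)) := hT.toFinset with hTd
  have hz : ∀ v : HeightOneSpectrum (𝓞 K), ∃ z : 𝓞 K,
      Valued.v (algebraMap K (v.adicCompletion K) (D : K) * x v -
        algebraMap K (v.adicCompletion K) (algebraMap (𝓞 K) K z)) < v.valuation K (a : K) := by
    intro v
    refine exists_near_int v _ ?_ (val_int_ne v ha0)
    rw [map_mul, val_K]
    exact hD v
  choose z hz using hz
  have haN : ∀ v : HeightOneSpectrum (𝓞 K), v.valuation K (a : K) =
      exp (-((multiplicity v.asIdeal (Ideal.span {(a : 𝓞 K)}) : ℕ) : ℤ)) := by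
    intro v
    have h1 : (a : K) = algebraMap (𝓞 K) K (a : 𝓞 K) := by rw [map_intCast]
    rw [h1, v.valuation_of_algebraMap, v.intValuation_eq_exp_neg_multiplicity haO]
  obtain ⟨w, hw⟩ := IsDedekindDomain.exists_forall_sub_mem_ideal (s := T)
    (fun v : HeightOneSpectrum (𝓞 K) => v.asIdeal)
    (fun v => multiplicity v.asIdeal (Ideal.span {(a : 𝓞 K)}))
    (fun v _ => v.prime) (fun v _ v' _ hne h => hne (HeightOneSpectrum.ext h))
    (fun v => z v.1)
  have key : ∀ v : HeightOneSpectrum (𝓞 K),
      Valued.v (algebraMap K (v.adicCompletion K) (D : K) * x v -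
        algebraMap K (v.adicCompletion K) (algebraMap (𝓞 K) K w)) ≤ v.valuation K (a : K) := by
    intro v
    by_cases hv : v ∈ T
    · have h1 := hw v hv
      have h2 : v.valuation K (algebraMap (𝓞 K) K (w - z v)) ≤ v.valuation K (a : K) := by
        rw [haN v, v.valuation_of_algebraMap, v.intValuation_le_pow_iff_mem]
        exact h1
      have e1 : algebraMap K (v.adicCompletion K) (D : K) * x v -
          algebraMap K (v.adicCompletion K) (algebraMap (𝓞 K) K w) =
          (algebraMap K (v.adicCompletion K) (D : K) * x v -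
            algebraMap K (v.adicCompletion K) (algebraMap (𝓞 K) K (z v))) -
          algebraMap K (v.adicCompletion K) (algebraMap (𝓞 K) K (w - z v)) := by
        simp only [map_sub]
        ring
      rw [e1]
      refine (Valuation.map_sub _ _ _).trans (max_le (hz v).le ?_)
      rw [val_K]
      exact h2
    · have h1 : v.valuation K (a : K) = 1 := by
        by_contra h
        exact hv (hT.mem_toFinset.2 h)
      rw [h1]
      refine (Valuation.map_sub _ _ _).trans (max_le ?_ ?_)
      · rw [map_mul, val_K]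
        exact hD v
      · rw [val_K]
        exact v.valuation_le_one w
  refine ⟨algebraMap (𝓞 K) K w / D, fun v => ?_⟩
  have hDv : v.valuation K (D : K) ≠ 0 := val_int_ne v hD0
  have h1 := key v
  have e1 : algebraMap K (v.adicCompletion K) (D : K) * x v -
      algebraMap K (v.adicCompletion K) (algebraMap (𝓞 K) K w) =
      algebraMap K (v.adicCompletion K) (D : K) *
        (x v - algebraMap K (v.adicCompletion K) (algebraMap (𝓞 K) K w / D)) := by
    rw [mul_sub, ← map_mul, mul_div_cancel₀ _ hDK]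
  rw [e1, map_mul, val_K, ha, Int.cast_mul, map_mul] at h1
  exact le_of_mul_le_mul_left h1 (zero_lt_iff.2 hDv)

/-- polynomials are Lipschitz on bounded sets, uniformly in the place -/
theorem lip (D : ℤ) (f : K[X]) : ∃ D₁ : ℤ, D₁ ≠ 0 ∧
    ∀ (v : HeightOneSpectrum (𝓞 K)) (a b : v.adicCompletion K),
      v.valuation K (D : K) * Valued.v a ≤ 1 → v.valuation K (D : K) * Valued.v b ≤ 1 → D ≠ 0 →
      v.valuation K (D₁ : K) * Valued.v (f.eval₂ (algebraMap K (v.adicCompletion K)) a -
        f.eval₂ (algebraMap K (v.adicCompletion K)) b) ≤ Valued.v (a - b) := by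
  classical
  by_cases hD0 : D = 0
  · exact ⟨1, one_ne_zero, fun _ _ _ _ _ h => absurd hD0 h⟩
  induction f using Polynomial.induction_on' with
  | add f g hf hg =>
    obtain ⟨D₁, h1, hf⟩ := hf
    obtain ⟨D₂, h2, hg⟩ := hg
    refine ⟨D₁ * D₂, mul_ne_zero h1 h2, fun v a b ha hb h0 => ?_⟩
    have e : (f + g).eval₂ (algebraMap K (v.adicCompletion K)) a -
        (f + g).eval₂ (algebraMap K (v.adicCompletion K)) b =
        (f.eval₂ (algebraMap K (v.adicCompletion K)) a -
          f.eval₂ (algebraMap K (v.adicCompletion K)) b) +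
        (g.eval₂ (algebraMap K (v.adicCompletion K)) a -
          g.eval₂ (algebraMap K (v.adicCompletion K)) b) := by
      rw [eval₂_add, eval₂_add]
      ring
    rw [e]
    push_cast
    rw [map_mul]
    refine (mul_le_mul_right (Valuation.map_add _ _ _) _).trans ?_
    rw [mul_max]
    refine max_le ?_ ?_
    · rw [mul_right_comm]
      exact (mul_le_of_le_one_right' (val_int_le v D₂)).trans (hf v a b ha hb h0)
    · rw [mul_assoc]
      exact (mul_le_of_le_one_left' (val_int_le v D₁)).trans (hg v a b ha hb h0)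
  | monomial n c =>
    obtain ⟨D₂, hD₂0, hD₂⟩ := exists_integral_multiples ℤ ℚ (L := K) {c}
    have hc : ∀ v : HeightOneSpectrum (𝓞 K), v.valuation K (D₂ : K) * v.valuation K c ≤ 1 := by
      intro v
      have h1 := hD₂ c (Finset.mem_singleton_self c)
      rw [zsmul_eq_mul] at h1
      rw [← map_mul]
      exact v.valuation_le_one (K := K) (⟨_, h1⟩ : 𝓞 K)
    refine ⟨D₂ * D ^ n, mul_ne_zero hD₂0 (pow_ne_zero _ hD0), fun v a b ha hb h0 => ?_⟩
    rw [eval₂_monomial, eval₂_monomial, ← mul_sub, map_mul, val_K, Int.cast_mul, Int.cast_pow,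
      map_mul, map_pow]
    have h1 : v.valuation K (D : K) ^ n * Valued.v (a ^ n - b ^ n) ≤ Valued.v (a - b) := by
      have e1 : (algebraMap K (v.adicCompletion K) (D : K)) ^ n * (a ^ n - b ^ n) =
          (algebraMap K (v.adicCompletion K) (D : K) * a) ^ n -
            (algebraMap K (v.adicCompletion K) (D : K) * b) ^ n := by
        rw [mul_pow, mul_pow]
        ring
      rw [← val_K v, ← map_pow, ← map_mul, e1, ← Commute.geom_sum₂_mul (Commute.all _ _), map_mul,
        ← mul_sub, map_mul _ _ (a - b)]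
      have ha' : Valued.v (algebraMap K (v.adicCompletion K) (D : K) * a) ≤ 1 := by
        rw [map_mul, val_K]
        exact ha
      have hb' : Valued.v (algebraMap K (v.adicCompletion K) (D : K) * b) ≤ 1 := by
        rw [map_mul, val_K]
        exact hb
      refine mul_le_of_le_one_of_le ?_ (mul_le_of_le_one_left' ?_)
      · refine Valuation.map_sum_le _ fun i _ => ?_
        rw [map_mul, map_pow, map_pow]
        exact mul_le_one' (pow_le_one₀ zero_le ha') (pow_le_one₀ zero_le hb')
      · rw [val_K]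
        exact val_int_le v D
    calc v.valuation K (D₂ : K) * v.valuation K (D : K) ^ n *
          (v.valuation K c * Valued.v (a ^ n - b ^ n)) =
          (v.valuation K (D₂ : K) * v.valuation K c) *
            (v.valuation K (D : K) ^ n * Valued.v (a ^ n - b ^ n)) := by
            rw [mul_mul_mul_comm]
      _ ≤ Valued.v (a - b) := mul_le_of_le_one_of_le (hc v) h1

lemma val_gt {R S Γ : Type*} [Field R] [Field S] [LinearOrderedCommGroupWithZero Γ]
    (V : Valuation S Γ) (φ : R →+* S) (P : R[X]) (hP : P.Monic) (hd : 0 < P.natDegree)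
    (hc : ∀ i, V (φ (P.coeff i)) ≤ 1) (x : S) (hx : 1 < V x) : 1 < V (P.eval₂ φ x) := by
  have h1 : V (P.eval₂ φ x) = V x ^ P.natDegree := by
    conv_lhs => rw [hP.as_sum, eval₂_add, eval₂_pow, eval₂_X, eval₂_finsetSum]
    rw [Valuation.map_add_eq_of_lt_left, map_pow]
    have h0 : V x ^ P.natDegree ≠ 0 := pow_ne_zero _ (zero_lt_one.trans hx).ne'
    rw [map_pow]
    refine Valuation.map_sum_lt _ h0 fun i hi => ?_
    rw [eval₂_mul, eval₂_C, eval₂_pow, eval₂_X, map_mul, map_pow]
    refine lt_of_le_of_lt (mul_le_of_le_one_left' (hc i)) ?_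
    exact pow_lt_pow_right₀ hx (Finset.mem_range.1 hi)
  rw [h1]
  exact one_lt_pow₀ hx hd.ne'

/-- the family is a limit of global elements with the same valuations, uniformly in all places -/
def Sq (x : ∀ v : HeightOneSpectrum (𝓞 K), v.adicCompletion K) : Prop :=
  ∃ b : ℕ → K, (∀ j, b j ≠ 0) ∧ (∀ j v, v.valuation K (b j) = Valued.v (x v)) ∧
    ∀ q : 𝓞 K, q ≠ 0 → ∃ j0, ∀ j, j0 ≤ j → ∀ v : HeightOneSpectrum (𝓞 K),
      Valued.v (x v - algebraMap K (v.adicCompletion K) (b j)) ≤
        Valued.v (x v) * v.valuation K (algebraMap (𝓞 K) K q)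

lemma Sq.finite {x : ∀ v : HeightOneSpectrum (𝓞 K), v.adicCompletion K} (h : Sq x) :
    {v | Valued.v (x v) ≠ 1}.Finite := by
  obtain ⟨b, hb0, hb, -⟩ := h
  refine (finite_ne_one (hb0 0)).subset fun v hv => ?_
  rw [Set.mem_ofPred_eq, hb]
  exact hv

/-- almost all points are integral -/
lemma finite_gt (P : K[X]) (hP : P.Monic) (hd : 0 < P.natDegree)
    (x : ∀ v : HeightOneSpectrum (𝓞 K), v.adicCompletion K)
    (h : Sq (fun v => P.eval₂ (algebraMap K (v.adicCompletion K)) (x v))) :
    {v : HeightOneSpectrum (𝓞 K) | 1 < Valued.v (x v)}.Finite := by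
  classical
  refine (h.finite.union (Set.Finite.biUnion (Finset.finite_toSet (Finset.range (P.natDegree + 1)))
    (t := fun i => {v : HeightOneSpectrum (𝓞 K) | P.coeff i ≠ 0 ∧
      v.valuation K (P.coeff i) ≠ 1}) fun i _ => ?_)).subset ?_
  · by_cases hi : P.coeff i = 0
    · simp [hi]
    · exact (finite_ne_one hi).subset fun v hv => hv.2
  · intro v hv
    by_contra hno
    simp only [Set.mem_union, Set.mem_iUnion, Set.mem_ofPred_eq, not_or, not_exists, not_and,
      not_not] at hno
    obtain ⟨h1, h2⟩ := hno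
    have h3 := val_gt Valued.v (algebraMap K (v.adicCompletion K)) P hP hd (fun i => by
      rw [val_K]
      by_cases hi : P.coeff i = 0
      · rw [hi, map_zero]
        exact zero_le
      · by_cases hi' : i ∈ Finset.range (P.natDegree + 1)
        · exact (h2 i hi' hi).le
        · rw [coeff_eq_zero_of_natDegree_lt, map_zero]
          · exact zero_le
          · rw [Finset.mem_range] at hi'
            omega) (x v) hv
    rw [h1] at h3
    exact lt_irrefl _ h3

lemma val_factorial {q : ℤ} (hq : q ≠ 0) {j : ℕ} (hj : q.natAbs ≤ j)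
    (v : HeightOneSpectrum (𝓞 K)) :
    v.valuation K ((j.factorial : ℤ) : K) ≤ v.valuation K (q : K) := by
  have h1 : q ∣ (j.factorial : ℤ) := by
    rw [← Int.natAbs_dvd]
    exact Int.natCast_dvd_natCast.2 (Nat.dvd_factorial (Int.natAbs_pos.2 hq) hj)
  obtain ⟨c, hc⟩ := h1
  rw [hc, Int.cast_mul, map_mul]
  exact mul_le_of_le_one_right' (val_int_le v c)

/-- Global approximations of the points and of the values. -/
theorem exists_approx {I : Type} [Nonempty I] (P : I → K[X]) (hP : ∀ i, (P i).Monic)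
    (hdeg : ∀ i, 0 < (P i).natDegree) (x : ∀ v : HeightOneSpectrum (𝓞 K), v.adicCompletion K)
    (h : ∀ i, Sq (fun v => (P i).eval₂ (algebraMap K (v.adicCompletion K)) (x v))) :
    ∃ (y : ℕ → K) (b : I → ℕ → K) (D : ℤ), D ≠ 0 ∧ (∀ i j, b i j ≠ 0) ∧
      (∀ i j (v : HeightOneSpectrum (𝓞 K)), v.valuation K (b i j) = v.valuation K (b i 0)) ∧
      (∀ i (q : ℤ), q ≠ 0 → ∀ᶠ j in atTop, ∀ v : HeightOneSpectrum (𝓞 K),
        v.valuation K ((P i).eval (y j) / b i j - 1) ≤ v.valuation K (q : K)) ∧
      (∀ j (v : HeightOneSpectrum (𝓞 K)), v.valuation K (D : K) * v.valuation K (y j) ≤ 1) ∧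
      ∀ v : HeightOneSpectrum (𝓞 K),
        Tendsto (fun j => algebraMap K (v.adicCompletion K) (y j)) atTop (𝓝 (x v)) := by
  classical
  obtain ⟨i₀⟩ := ‹Nonempty I›
  obtain ⟨D, hD0, hD⟩ := exists_den x (finite_gt (P i₀) (hP i₀) (hdeg i₀) x (h i₀))
  choose y hy using fun j : ℕ => strong_approx x D hD0 hD (j.factorial : ℤ)
    (Int.natCast_ne_zero.2 (Nat.factorial_ne_zero j))
  choose b hb0 hbv hbq using h
  have hDy : ∀ j (v : HeightOneSpectrum (𝓞 K)),
      v.valuation K (D : K) * Valued.v (algebraMap K (v.adicCompletion K) (y j)) ≤ 1 := by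
    intro j v
    have e1 : algebraMap K (v.adicCompletion K) (y j) =
        x v - (x v - algebraMap K (v.adicCompletion K) (y j)) := by ring
    rw [e1]
    refine (mul_le_mul_right (Valuation.map_sub _ _ _) _).trans ?_
    rw [mul_max]
    refine max_le (hD v) (mul_le_one' (val_int_le v D) ((hy j v).trans (val_int_le v _)))
  refine ⟨y, b, D, hD0, hb0, fun i j v => by rw [hbv, hbv], ?_, fun j v => by
    rw [← val_K v (y j)]; exact hDy j v, ?_⟩
  · intro i q hq
    obtain ⟨D₁, hD₁, hlip⟩ := lip D (P i)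
    obtain ⟨D₃, hD₃0, hD₃⟩ := exists_integral_multiples ℤ ℚ (L := K) {(b i 0)⁻¹}
    have hD₃v : ∀ v : HeightOneSpectrum (𝓞 K), v.valuation K (D₃ : K) ≤ v.valuation K (b i 0) := by
      intro v
      have h1 := hD₃ _ (Finset.mem_singleton_self _)
      rw [zsmul_eq_mul] at h1
      have h2 : v.valuation K ((D₃ : K) * (b i 0)⁻¹) ≤ 1 :=
        v.valuation_le_one (K := K) (⟨_, h1⟩ : 𝓞 K)
      rw [map_mul, map_inv₀] at h2
      have h3 : 0 < v.valuation K (b i 0) := zero_lt_iff.2 ((Valuation.ne_zero_iff _).2 (hb0 i 0))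
      rw [← div_eq_mul_inv] at h2
      exact (div_le_one₀ h3).1 h2
    obtain ⟨j₀, hj₀⟩ := hbq i (q : 𝓞 K) (Int.cast_ne_zero.2 hq)
    filter_upwards [eventually_ge_atTop j₀, eventually_ge_atTop (D₁ * D₃ * q).natAbs]
      with j h1 h2 v
    have hX : v.valuation K (b i j) = Valued.v ((P i).eval₂ (algebraMap K (v.adicCompletion K)) (x v)) :=
      hbv i j v
    have h3 := hj₀ j h1 v
    rw [map_intCast] at h3
    have h4 := hlip v (x v) (algebraMap K (v.adicCompletion K) (y j)) (hD v) (hDy j v) hD0
    have h5 := (h4.trans (hy j v)).trans (val_factorial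
      (mul_ne_zero (mul_ne_zero hD₁ hD₃0) hq) h2 v)
    rw [Int.cast_mul, Int.cast_mul, map_mul, map_mul, mul_assoc] at h5
    have h6 := le_of_mul_le_mul_left h5 (zero_lt_iff.2 (val_int_ne v hD₁))
    have h7 : Valued.v ((P i).eval₂ (algebraMap K (v.adicCompletion K)) (x v) -
        (P i).eval₂ (algebraMap K (v.adicCompletion K)) (algebraMap K (v.adicCompletion K) (y j))) ≤
        v.valuation K (b i j) * v.valuation K (q : K) := by
      refine h6.trans (mul_le_mul_left ?_ _)
      rw [hbv, ← hbv i 0 v]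
      exact hD₃v v
    have h8 : v.valuation K ((P i).eval (y j) - b i j) ≤
        v.valuation K (b i j) * v.valuation K (q : K) := by
      rw [← val_K v, map_sub]
      have e1 : algebraMap K (v.adicCompletion K) ((P i).eval (y j)) =
          (P i).eval₂ (algebraMap K (v.adicCompletion K))
            (algebraMap K (v.adicCompletion K) (y j)) := (eval₂_at_apply _ _).symm
      rw [e1]
      have e2 : (P i).eval₂ (algebraMap K (v.adicCompletion K))
            (algebraMap K (v.adicCompletion K) (y j)) - algebraMap K (v.adicCompletion K) (b i j) =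
          ((P i).eval₂ (algebraMap K (v.adicCompletion K)) (x v) -
            algebraMap K (v.adicCompletion K) (b i j)) -
          ((P i).eval₂ (algebraMap K (v.adicCompletion K)) (x v) -
            (P i).eval₂ (algebraMap K (v.adicCompletion K))
              (algebraMap K (v.adicCompletion K) (y j))) := by ring
      rw [e2]
      refine (Valuation.map_sub _ _ _).trans (max_le ?_ h7)
      rw [hX]
      exact h3
    have hb0' : b i j ≠ 0 := hb0 i j
    have e3 : (P i).eval (y j) / b i j - 1 = ((P i).eval (y j) - b i j) / b i j := by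
      rw [sub_div, div_self hb0']
    rw [e3, map_div₀]
    have h9 : 0 < v.valuation K (b i j) := zero_lt_iff.2 ((Valuation.ne_zero_iff _).2 hb0')
    rw [div_le_iff₀ h9, mul_comm]
    exact h8
  · intro v
    have h0 : Tendsto (fun j => algebraMap K (v.adicCompletion K) (y j) - x v) atTop (𝓝 0) := by
      refine tendsto_zero_of_val v fun γ hγ => ?_
      obtain ⟨q, hq0, hq⟩ := exists_small v hγ
      filter_upwards [eventually_ge_atTop q.natAbs] with j h2
      rw [Valuation.map_sub_swap]
      exact ((hy j v).trans (val_factorial hq0 h2 v)).trans_lt hq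
    have h1 := h0.add_const (x v)
    simpa using h1

end Pool.Agent.U36.CM
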