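import Mathlib

/-!
Poles and zeros of products over embeddings: two counting lemmas.
-/

set_option autoImplicit false
set_option linter.unusedSectionVars false

open Finset

namespace Pool.Agent.U36.CM

variable {ι I Γ : Type} [Fintype ι] [Fintype I] [LinearOrderedCommGroupWithZero Γ]

/-- If there are at least as many functions as variables, then there is no pole. -/
theorem combA (h : ι → Γ) (w : I → ι → Γ) (n : I → ℕ) (hn : ∀ i, n i ≠ 0)
    (F1 : ∀ i σ, 1 < h σ → w i σ = h σ ^ n i)
    (F3 : ∀ i j σ, w i σ < 1 → w j σ < 1 → i = j) (hN : ∀ i, ∏ σ, w i σ ≤ 1)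
    (hcard : Fintype.card ι ≤ Fintype.card I) (σ₀ : ι) : h σ₀ ≤ 1 := by
  classical
  by_contra hno
  push Not at hno
  have hbig : ∀ i σ, 1 < h σ → 1 < w i σ := fun i σ hσ => by
    rw [F1 i σ hσ]
    exact one_lt_pow₀ hσ (hn i)
  have hex : ∀ i, ∃ σ, w i σ < 1 := by
    intro i
    by_contra hall
    push Not at hall
    have h1 : 1 < ∏ σ, w i σ := by
      rw [← Finset.mul_prod_erase _ _ (Finset.mem_univ σ₀)]
      have h2 : (1 : Γ) ≤ ∏ σ ∈ Finset.univ.erase σ₀, w i σ :=
        Finset.one_le_prod' (fun σ _ => hall σ)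
      exact lt_of_lt_of_le (hbig i σ₀ hno) (le_mul_of_one_le_right zero_le h2)
    exact absurd (hN i) (not_le.2 h1)
  choose g hg using hex
  have hginj : Function.Injective g := by
    intro i j hij
    refine F3 i j (g i) (hg i) ?_
    rw [hij]
    exact hg j
  have hlt : Fintype.card I < Fintype.card ι := by
    apply Fintype.card_lt_of_injective_of_notMem g hginj (b := σ₀)
    rintro ⟨i, hi⟩
    have h1 := hg i
    rw [hi] at h1
    exact absurd h1 (not_lt.2 (hbig i σ₀ hno).le)
  omega

/-- the product of the poles in a set -/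
noncomputable def poles (h : ι → Γ) (s : Finset ι) : Γ := ∏ σ ∈ s, max (h σ) 1

lemma one_le_poles (h : ι → Γ) (s : Finset ι) : 1 ≤ poles h s :=
  Finset.one_le_prod' fun _ _ => le_max_right _ _

lemma prod_le_poles (h : ι → Γ) (w : ι → Γ) (n : ℕ)
    (F1 : ∀ σ, 1 < h σ → w σ = h σ ^ n) (F2 : ∀ σ, h σ ≤ 1 → w σ ≤ 1) (s : Finset ι) :
    ∏ σ ∈ s, w σ ≤ poles h s ^ n := by
  rw [poles, ← Finset.prod_pow]
  refine Finset.prod_le_prod' fun σ _ => ?_
  rcases le_or_gt (h σ) 1 with h1 | h1
  · rw [max_eq_right h1, one_pow]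
    exact F2 σ h1
  · rw [max_eq_left h1.le, F1 σ h1]

lemma poles_le_prod (h : ι → Γ) (w : ι → Γ) (n : ℕ)
    (F1 : ∀ σ, 1 < h σ → w σ = h σ ^ n) (s : Finset ι) (hs : ∀ σ ∈ s, 1 ≤ w σ) :
    poles h s ^ n ≤ ∏ σ ∈ s, w σ := by
  rw [poles, ← Finset.prod_pow]
  refine Finset.prod_le_prod' fun σ hσ => ?_
  rcases le_or_gt (h σ) 1 with h1 | h1
  · rw [max_eq_right h1, one_pow]
    exact hs σ hσ
  · rw [max_eq_left h1.le, F1 σ h1]

lemma prod_lt_poles (h : ι → Γ) (w : ι → Γ) (n : ℕ)
    (F1 : ∀ σ, 1 < h σ → w σ = h σ ^ n) (F2 : ∀ σ, h σ ≤ 1 → w σ ≤ 1) (s : Finset ι) {σ₁ : ι}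
    (hσ₁ : σ₁ ∈ s) (hw : w σ₁ < 1) : ∏ σ ∈ s, w σ < poles h s ^ n := by
  classical
  have h0 : 0 < poles h (s.erase σ₁) ^ n := pow_pos (lt_of_lt_of_le zero_lt_one (one_le_poles _ _)) n
  rw [← Finset.mul_prod_erase _ _ hσ₁]
  have h1 := prod_le_poles h w n F1 F2 (s.erase σ₁)
  have h2 : poles h s ^ n = (max (h σ₁) 1) ^ n * poles h (s.erase σ₁) ^ n := by
    rw [← mul_pow, poles, poles, Finset.mul_prod_erase s (fun σ => max (h σ) 1) hσ₁]
  rw [h2]
  have h3 : w σ₁ < (max (h σ₁) 1) ^ n := lt_of_lt_of_le hw (one_le_pow₀ (le_max_right _ _))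
  calc w σ₁ * ∏ σ ∈ s.erase σ₁, w σ ≤ w σ₁ * poles h (s.erase σ₁) ^ n := mul_le_mul_right h1 _
    _ < (max (h σ₁) 1) ^ n * poles h (s.erase σ₁) ^ n := mul_lt_mul_of_pos_right h3 h0

/-- The variables are divided in blocks of the same size, which are exchanged in pairs. If the products
over paired blocks agree, and the total products are `1`, and there are at least half as many
functions as variables, then there is no pole. -/
theorem combB {T : Type} [DecidableEq T] (r : ι → T) (c : T → T) (hc : ∀ τ, c τ ≠ τ)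
    (hcc : ∀ τ, c (c τ) = τ)
    (hblk : ∀ τ, (univ.filter fun σ => r σ = τ).card = (univ.filter fun σ => r σ = c τ).card)
    (h : ι → Γ) (w : I → ι → Γ) (n : I → ℕ) (hn : ∀ i, n i ≠ 0)
    (F1 : ∀ i σ, 1 < h σ → w i σ = h σ ^ n i) (F2 : ∀ i σ, h σ ≤ 1 → w i σ ≤ 1)
    (F3 : ∀ i j σ, w i σ < 1 → w j σ < 1 → i = j) (hN : ∀ i, ∏ σ, w i σ ≤ 1)
    (hW : ∀ i τ, ∏ σ ∈ univ.filter (fun σ => r σ = τ), w i σ ≤
      ∏ σ ∈ univ.filter (fun σ => r σ = c τ), w i σ)
    (hcard : Fintype.card ι ≤ 2 * Fintype.card I) (σ₀ : ι) : h σ₀ ≤ 1 := by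
  classical
  by_contra hno
  push Not at hno
  set blk : T → Finset ι := fun τ => univ.filter fun σ => r σ = τ with hblkd
  have hmem : ∀ τ σ, σ ∈ blk τ ↔ r σ = τ := fun τ σ => by simp [hblkd]
  have hbig : ∀ i σ, 1 < h σ → 1 < w i σ := fun i σ hσ => by
    rw [F1 i σ hσ]
    exact one_lt_pow₀ hσ (hn i)
  have hpole : ∀ τ, 1 < poles h (blk τ) → ∃ σ, r σ = τ ∧ 1 < h σ := by
    intro τ hτ
    by_contra hall
    push Not at hall
    have h1 : poles h (blk τ) = 1 := by
      refine Finset.prod_eq_one fun σ hσ => ?_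
      exact max_eq_right (hall σ ((hmem τ σ).1 hσ))
    rw [h1] at hτ
    exact lt_irrefl _ hτ
  by_cases hcase : ∃ τ, poles h (blk (c τ)) < poles h (blk τ)
  · obtain ⟨τ, hτ⟩ := hcase
    obtain ⟨σp, hσp, hp⟩ := hpole τ (lt_of_le_of_lt (one_le_poles _ _) hτ)
    have hex : ∀ i, ∃ σ, r σ = τ ∧ w i σ < 1 := by
      intro i
      by_contra hall
      push Not at hall
      have h1 := poles_le_prod h (w i) (n i) (F1 i) (blk τ) fun σ hσ => hall σ ((hmem τ σ).1 hσ)
      have h2 := prod_le_poles h (w i) (n i) (F1 i) (F2 i) (blk (c τ))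
      have h3 : poles h (blk (c τ)) ^ n i < poles h (blk τ) ^ n i :=
        pow_lt_pow_left₀ hτ zero_le (hn i)
      exact absurd (h1.trans ((hW i τ).trans h2)) (not_le.2 h3)
    choose g hg1 hg2 using hex
    let G : Option I → ι := fun o => o.elim σp g
    have hGinj : Function.Injective G := by
      intro o o' ho
      rcases o with _ | i <;> rcases o' with _ | j
      · rfl
      · exfalso
        have h1 := hg2 j
        have h2 : σp = g j := ho
        rw [← h2] at h1
        exact absurd h1 (not_lt.2 (hbig j σp hp).le)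
      · exfalso
        have h1 := hg2 i
        have h2 : g i = σp := ho
        rw [h2] at h1
        exact absurd h1 (not_lt.2 (hbig i σp hp).le)
      · congr 1
        have h2 : g i = g j := ho
        refine F3 i j (g i) (hg2 i) ?_
        rw [h2]
        exact hg2 j
    have h1 : Fintype.card (Option I) ≤ (blk τ).card := by
      rw [← Finset.card_univ, ← Finset.card_image_of_injective _ hGinj]
      refine Finset.card_le_card fun σ hσ => ?_
      obtain ⟨o, -, rfl⟩ := Finset.mem_image.1 hσ
      rw [hmem]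
      rcases o with _ | i
      · exact hσp
      · exact hg1 i
    have h2 : (blk τ).card + (blk (c τ)).card ≤ Fintype.card ι := by
      rw [← Finset.card_union_of_disjoint, ← Finset.card_univ]
      · exact Finset.card_le_card (Finset.subset_univ _)
      · rw [Finset.disjoint_left]
        intro σ h3 h4
        rw [hmem] at h3 h4
        exact hc τ (h4.symm.trans h3)
    have h3 := hblk τ
    rw [Fintype.card_option] at h1
    change (blk τ).card = (blk (c τ)).card at h3
    omega
  · push Not at hcase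
    have hex : ∀ i, ∃ σ, w i σ < 1 := by
      intro i
      by_contra hall
      push Not at hall
      have h1 : 1 < ∏ σ, w i σ := by
        rw [← Finset.mul_prod_erase _ _ (Finset.mem_univ σ₀)]
        have h2 : (1 : Γ) ≤ ∏ σ ∈ Finset.univ.erase σ₀, w i σ :=
          Finset.one_le_prod' (fun σ _ => hall σ)
        exact lt_of_lt_of_le (hbig i σ₀ hno) (le_mul_of_one_le_right zero_le h2)
      exact absurd (hN i) (not_le.2 h1)
    choose g hg using hex
    have hex' : ∀ i, ∃ σ, r σ = c (r (g i)) ∧ w i σ < 1 := by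
      intro i
      by_contra hall
      push Not at hall
      have h1 := poles_le_prod h (w i) (n i) (F1 i) (blk (c (r (g i))))
        fun σ hσ => hall σ ((hmem _ σ).1 hσ)
      have h2 := prod_lt_poles h (w i) (n i) (F1 i) (F2 i) (blk (r (g i))) ((hmem _ _).2 rfl) (hg i)
      have h3 := hW i (c (r (g i)))
      rw [hcc] at h3
      have h4 : poles h (blk (r (g i))) ^ n i ≤ poles h (blk (c (r (g i)))) ^ n i :=
        pow_le_pow_left₀ zero_le (hcase _) _
      exact absurd (h4.trans (h1.trans h3)) (not_le.2 h2)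
    choose g' hg1' hg2' using hex'
    obtain ⟨σ₀', hσ₀', hp'⟩ : ∃ σ, r σ = c (r σ₀) ∧ 1 < h σ := by
      apply hpole
      refine lt_of_lt_of_le ?_ (hcase _)
      rw [poles, ← Finset.mul_prod_erase _ _ ((hmem (r σ₀) σ₀).2 rfl)]
      exact lt_of_lt_of_le hno ((le_max_left (h σ₀) 1).trans
        (le_mul_of_one_le_right zero_le (one_le_poles h _)))
    let G : Bool × Option I → ι := fun o =>
      o.2.elim (cond o.1 σ₀ σ₀') (fun i => cond o.1 (g i) (g' i))
    have hG1 : ∀ b i, w i (G (b, some i)) < 1 := by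
      intro b i
      cases b
      · exact hg2' i
      · exact hg i
    have hG2 : ∀ b, 1 < h (G (b, none)) := by
      intro b
      cases b
      · exact hp'
      · exact hno
    have hG3 : ∀ o, r (G (false, o)) = c (r (G (true, o))) := by
      intro o
      rcases o with _ | i
      · exact hσ₀'
      · exact hg1' i
    have hGinj : Function.Injective G := by
      rintro ⟨b, o⟩ ⟨b', o'⟩ ho
      have h1 : o = o' := by
        rcases o with _ | i <;> rcases o' with _ | j
        · rfl
        · exfalso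
          have h1 := hG1 b' j
          rw [← ho] at h1
          exact absurd h1 (not_lt.2 (hbig j _ (hG2 b)).le)
        · exfalso
          have h1 := hG1 b i
          rw [ho] at h1
          exact absurd h1 (not_lt.2 (hbig i _ (hG2 b')).le)
        · congr 1
          refine F3 i j _ (hG1 b i) ?_
          rw [ho]
          exact hG1 b' j
      subst h1
      have h2 : b = b' := by
        by_contra hbb
        have h3 := hG3 o
        rcases b with _ | _ <;> rcases b' with _ | _
        · exact hbb rfl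
        · rw [ho] at h3
          exact hc _ h3.symm
        · rw [← ho] at h3
          exact hc _ h3.symm
        · exact hbb rfl
      rw [h2]
    have h1 := Fintype.card_le_of_injective G hGinj
    rw [Fintype.card_prod, Fintype.card_bool, Fintype.card_option] at h1
    omega

end Pool.Agent.U36.CM
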