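import Pool.Agent.U36.CM.Integral

/-!
The valuative condition for norms, and for norms to CM fields.
-/

set_option autoImplicit false
set_option linter.unusedSectionVars false

open Polynomial Finset

namespace Pool.Agent.U36.CM

section val

variable {E L : Type} [Field E] [Field L] (V : ValuationSubring L) (γ : E →+* L)

lemma val_eval_le (hγ : ∀ e, γ e ∈ V) (f : E[X]) {x : L} (hx : V.valuation x ≤ 1) :
    V.valuation (f.eval₂ γ x) ≤ 1 := by
  rw [eval₂_eq_sum_range]
  refine Valuation.map_sum_le _ fun i _ => ?_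
  rw [map_mul, map_pow]
  exact mul_le_one' ((V.valuation_le_one_iff _).2 (hγ _)) (pow_le_one₀ zero_le hx)

lemma val_eval_of_gt (hγ : ∀ e, γ e ∈ V) (f : E[X]) (hf : f.Monic) {x : L}
    (hx : 1 < V.valuation x) : V.valuation (f.eval₂ γ x) = V.valuation x ^ f.natDegree := by
  rcases Nat.eq_zero_or_pos f.natDegree with hd | hd
  · have h1 : f = 1 := eq_one_of_monic_natDegree_zero hf hd
    rw [h1]
    simp
  conv_lhs => rw [hf.as_sum, eval₂_add, eval₂_pow, eval₂_X, eval₂_finsetSum]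
  rw [Valuation.map_add_eq_of_lt_left, map_pow]
  have h0 : V.valuation x ^ f.natDegree ≠ 0 := pow_ne_zero _ (zero_lt_one.trans hx).ne'
  rw [map_pow]
  refine Valuation.map_sum_lt _ h0 fun i hi => ?_
  rw [eval₂_mul, eval₂_C, eval₂_pow, eval₂_X, map_mul, map_pow]
  refine lt_of_le_of_lt (mul_le_of_le_one_left' ((V.valuation_le_one_iff _).2 (hγ _))) ?_
  exact pow_lt_pow_right₀ hx (Finset.mem_range.1 hi)

end val

variable {E ι I : Type} [Field E] [Fintype ι] [Fintype I]

/-- the values of the polynomials at a valuation ring -/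
lemma three (f : I → ι → E[X]) (hmon : ∀ i σ, (f i σ).Monic) (n : I → ℕ)
    (hdeg : ∀ i σ, (f i σ).natDegree = n i) (hcop : ∀ i j σ, i ≠ j → IsCoprime (f i σ) (f j σ))
    {L : Type} [Field L] (V : ValuationSubring L) (γ : E →+* L) (x : ι → L)
    (hγ : ∀ e, γ e ∈ V) :
    (∀ i σ, 1 < V.valuation (x σ) →
      V.valuation ((f i σ).eval₂ γ (x σ)) = V.valuation (x σ) ^ n i) ∧
    (∀ i σ, V.valuation (x σ) ≤ 1 → V.valuation ((f i σ).eval₂ γ (x σ)) ≤ 1) ∧
    (∀ i j σ, V.valuation ((f i σ).eval₂ γ (x σ)) < 1 →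
      V.valuation ((f j σ).eval₂ γ (x σ)) < 1 → i = j) := by
  have F1 : ∀ i σ, 1 < V.valuation (x σ) →
      V.valuation ((f i σ).eval₂ γ (x σ)) = V.valuation (x σ) ^ n i := fun i σ h => by
    rw [val_eval_of_gt V γ hγ (f i σ) (hmon i σ) h, hdeg]
  refine ⟨F1, fun i σ h => val_eval_le V γ hγ (f i σ) h, fun i j σ h1 h2 => ?_⟩
  by_contra hne
  have hx : V.valuation (x σ) ≤ 1 := by
    by_contra h3
    push Not at h3
    rw [F1 i σ h3] at h1
    exact absurd h1 (not_lt.2 (one_le_pow₀ h3.le))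
  obtain ⟨a, b, hab⟩ := hcop i j σ hne
  have h3 := congrArg (fun q : E[X] => q.eval₂ γ (x σ)) hab
  simp only [eval₂_add, eval₂_mul, eval₂_one] at h3
  have h4 : V.valuation (a.eval₂ γ (x σ) * (f i σ).eval₂ γ (x σ) +
      b.eval₂ γ (x σ) * (f j σ).eval₂ γ (x σ)) < 1 := by
    refine lt_of_le_of_lt (Valuation.map_add _ _ _) (max_lt ?_ ?_)
    · rw [map_mul]
      exact mul_lt_one_of_nonneg_of_lt_one_right (val_eval_le V γ hγ a hx) zero_le h1
    · rw [map_mul]
      exact mul_lt_one_of_nonneg_of_lt_one_right (val_eval_le V γ hγ b hx) zero_le h2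
  rw [h3, map_one] at h4
  exact lt_irrefl _ h4

theorem critA (f : I → ι → E[X]) (hmon : ∀ i σ, (f i σ).Monic) (n : I → ℕ) (hn : ∀ i, n i ≠ 0)
    (hdeg : ∀ i σ, (f i σ).natDegree = n i) (hcop : ∀ i j σ, i ≠ j → IsCoprime (f i σ) (f j σ))
    (hcard : Fintype.card ι ≤ Fintype.card I) (σ₀ : ι) :
    Crit f (fun (_ : Unit) (_ : ι) => (1 : ℤ)) σ₀ := by
  intro L _ V γ x hγ _ hN
  obtain ⟨F1, -, F3⟩ := three f hmon n hdeg hcop V γ x hγ
  rw [← V.valuation_le_one_iff]
  refine combA (fun σ => V.valuation (x σ)) (fun i σ => V.valuation ((f i σ).eval₂ γ (x σ))) n hn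
    F1 F3 (fun i => ?_) hcard σ₀
  have h1 := (V.valuation_le_one_iff _).2 (hN () i)
  simp only [zpow_one, map_prod] at h1
  exact h1

/-- the exponents for the blocks -/
def mB {T : Type} [DecidableEq T] (r : ι → T) (c : T → T) (a : Option T) (σ : ι) : ℤ :=
  match a with
  | none => 1
  | some τ => if r σ = τ then 1 else if r σ = c τ then -1 else 0

lemma prod_mB {T G : Type} [DecidableEq T] [CommGroupWithZero G] (r : ι → T) (c : T → T)
    (hc : ∀ τ, c τ ≠ τ) (τ : T) (w : ι → G) :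
    ∏ σ, w σ ^ mB r c (some τ) σ =
      (∏ σ ∈ univ.filter (fun σ => r σ = τ), w σ) / ∏ σ ∈ univ.filter (fun σ => r σ = c τ), w σ := by
  rw [Finset.prod_filter, Finset.prod_filter, ← Finset.prod_div_distrib]
  refine Finset.prod_congr rfl fun σ _ => ?_
  unfold mB
  by_cases h1 : r σ = τ
  · simp [h1, (hc τ).symm]
  · by_cases h2 : r σ = c τ
    · simp [h2, hc τ]
    · simp [h1, h2]

theorem critB {T : Type} [DecidableEq T] (r : ι → T) (c : T → T) (hc : ∀ τ, c τ ≠ τ)
    (hcc : ∀ τ, c (c τ) = τ)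
    (hblk : ∀ τ, (univ.filter fun σ => r σ = τ).card = (univ.filter fun σ => r σ = c τ).card)
    (f : I → ι → E[X]) (hmon : ∀ i σ, (f i σ).Monic) (n : I → ℕ) (hn : ∀ i, n i ≠ 0)
    (hdeg : ∀ i σ, (f i σ).natDegree = n i) (hcop : ∀ i j σ, i ≠ j → IsCoprime (f i σ) (f j σ))
    (hcard : Fintype.card ι ≤ 2 * Fintype.card I) (σ₀ : ι) : Crit f (mB r c) σ₀ := by
  intro L _ V γ x hγ hne hN
  obtain ⟨F1, F2, F3⟩ := three f hmon n hdeg hcop V γ x hγ
  rw [← V.valuation_le_one_iff]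
  refine combB r c hc hcc hblk (fun σ => V.valuation (x σ))
    (fun i σ => V.valuation ((f i σ).eval₂ γ (x σ))) n hn F1 F2 F3 (fun i => ?_) (fun i τ => ?_)
    hcard σ₀
  · have h1 := (V.valuation_le_one_iff _).2 (hN none i)
    simp only [mB, zpow_one, map_prod] at h1
    exact h1
  · have h1 := (V.valuation_le_one_iff _).2 (hN (some τ) i)
    rw [prod_mB r c hc τ _, map_div₀, map_prod, map_prod] at h1
    have h2 : (0 : V.ValueGroup) < ∏ σ ∈ univ.filter (fun σ => r σ = c τ),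
        V.valuation ((f i σ).eval₂ γ (x σ)) := by
      rw [zero_lt_iff, Finset.prod_ne_zero_iff]
      intro σ _
      exact (Valuation.ne_zero_iff _).2 (hne i σ)
    exact (div_le_one₀ h2).1 h1

end Pool.Agent.U36.CM
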