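import Pool.Agent.U36.CM.Val

/-!
Adelic points of the line whose values at several polynomials are global modulo all powers.
-/

set_option autoImplicit false
set_option linter.unusedSectionVars false

open IsDedekindDomain NumberField WithZero Polynomial Filter Topology

namespace Pool.Agent.U36.CM

open Pool.Agent.U36.BA

variable {K : Type} [Field K] [NumberField K]

/-- elements with the same valuations differ by a unit -/
lemma unit_of_val {b c : K} (hb : b ≠ 0) (hc : c ≠ 0)
    (h : ∀ v : HeightOneSpectrum (𝓞 K), v.valuation K b = v.valuation K c) :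
    ∃ u : (𝓞 K)ˣ, b = ((u : 𝓞 K) : K) * c := by
  have key : ∀ a a' : K, a ≠ 0 → a' ≠ 0 →
      (∀ v : HeightOneSpectrum (𝓞 K), v.valuation K a = v.valuation K a') →
      ∃ r : 𝓞 K, (r : K) = a / a' := by
    intro a a' _ ha' h'
    refine HeightOneSpectrum.mem_integers_of_valuation_le_one K (a / a') fun v => ?_
    rw [map_div₀, h' v, div_self ((Valuation.ne_zero_iff _).2 ha')]
  obtain ⟨r, hr⟩ := key b c hb hc h
  obtain ⟨r', hr'⟩ := key c b hc hb fun v => (h v).symm
  refine ⟨⟨r, r', ?_, ?_⟩, ?_⟩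
  · apply RingOfIntegers.ext
    change (r : K) * (r' : K) = 1
    rw [hr, hr', div_mul_div_cancel₀ hc, div_self hb]
  · apply RingOfIntegers.ext
    change (r' : K) * (r : K) = 1
    rw [hr, hr', div_mul_div_cancel₀ hb, div_self hc]
  · change b = (r : K) * c
    rw [hr, div_mul_cancel₀ _ hc]

lemma Nul.congr {E : Type} [Field E] [CharZero E] {W : ValuationSubring E} {l : Filter ℕ}
    {z w : ℕ → E} (hz : Nul W l z) (h : ∀ᶠ j in l, z j = w j) : Nul W l w := by
  intro q hq
  filter_upwards [hz q hq, h] with j h1 h2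
  rw [← h2]
  exact h1

/-- a polynomial over `K` divisible by a given one -/
lemma exists_mult {E : Type} [Field E] [Algebra K E] [Algebra.IsAlgebraic K E] [IsAlgClosed E]
    (P : E[X]) (hP : P.Monic) : ∃ Q : K[X], Q.Monic ∧ P ∣ Q.map (algebraMap K E) := by
  refine ⟨(P.roots.map fun α => minpoly K α).prod, ?_, ?_⟩
  · refine monic_multiset_prod_of_monic _ _ fun α _ => ?_
    exact minpoly.monic (Algebra.IsIntegral.isIntegral α)
  · have h1 : P = (P.roots.map fun α => X - C α).prod :=
      Splits.eq_prod_roots_of_monic (IsAlgClosed.splits P) hP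
    conv_lhs => rw [h1]
    rw [Polynomial.map_multiset_prod, Multiset.map_map]
    refine Multiset.prod_dvd_prod_of_dvd _ _ fun α _ => ?_
    rw [dvd_iff_isRoot, IsRoot.def, Function.comp_apply, eval_map_algebraMap, minpoly.aeval]

/-- The general theorem. -/
theorem core_gen {I A : Type} [Fintype I] [Nonempty I] [Finite A] (P : I → K[X])
    (hP : ∀ i, (P i).Monic) (hdeg : ∀ i, 0 < (P i).natDegree)
    (m : A → (K →+* AlgebraicClosure K) → ℤ)
    (hfin : ∀ a, {z : AlgebraicClosure K | ∃ u : (𝓞 K)ˣ,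
      z = mon (AlgebraicClosure K) (m a) ((u : 𝓞 K) : K)}.Finite)
    (hcrit : Crit (fun i (σ : K →+* AlgebraicClosure K) => (P i).map σ) m
      (algebraMap K (AlgebraicClosure K)))
    (x : ∀ v : HeightOneSpectrum (𝓞 K), v.adicCompletion K)
    (h : ∀ i, Sq (fun v => (P i).eval₂ (algebraMap K (v.adicCompletion K)) (x v))) :
    ∃ Q : K[X], Q.Monic ∧
      ∀ v : HeightOneSpectrum (𝓞 K), Q.eval₂ (algebraMap K (v.adicCompletion K)) (x v) = 0 := by
  classical
  set E := AlgebraicClosure K with hE
  have hKE : Algebra.IsAlgebraic K E := AlgebraicClosure.isAlgebraic K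
  have hQE : Algebra.IsAlgebraic ℚ E := Algebra.IsAlgebraic.trans ℚ K E
  obtain ⟨y, b, D, hD0, hb0, hbv, hclose, hDy, hlim⟩ := exists_approx P hP hdeg x h
  choose u hu using fun i j => unit_of_val (hb0 i j) (hb0 i 0) (hbv i j)
  let S : A → Set E := fun a => {z : E | ∃ u : (𝓞 K)ˣ, z = mon E (m a) ((u : 𝓞 K) : K)}
  have hSfin : ∀ q : A × I, Finite (S q.1) := fun q => (hfin q.1).to_subtype
  let F : ℕ → (∀ q : A × I, S q.1) := fun j q => ⟨mon E (m q.1) ((u q.2 j : 𝓞 K) : K), ⟨_, rfl⟩⟩
  obtain ⟨ζ, hζ⟩ := Finite.exists_infinite_fiber F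
  set J : Set ℕ := F ⁻¹' {ζ} with hJ
  have hJinf : J.Infinite := Set.infinite_coe_iff.1 hζ
  set l : Filter ℕ := atTop ⊓ 𝓟 J with hl
  have hne : l.NeBot := by
    rw [hl, ← frequently_mem_iff_neBot]
    exact Nat.frequently_atTop_iff_infinite.2 hJinf
  have hlJ : ∀ᶠ j in l, j ∈ J := eventually_inf_principal.2 (Eventually.of_forall fun j hj => hj)
  set R : A × I → E := fun q => (ζ q : E) * mon E (m q.1) (b q.2 0) with hR
  have hRJ : ∀ j ∈ J, ∀ a i, mon E (m a) (b i j) = R (a, i) := by
    intro j hj a i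
    have h1 : F j = ζ := hj
    have h2 := congrArg (fun G => ((G (a, i) : S a) : E)) h1
    have h3 : mon E (m a) ((u i j : 𝓞 K) : K) = ζ (a, i) := h2
    rw [hu i j, mon_mul, h3]
  obtain ⟨p, hp, hp0⟩ := exists_univ (fun i (σ : K →+* E) => (P i).map σ)
    (fun i σ => by rw [(hP i).natDegree_map]; exact hdeg i) m (algebraMap K E) hcrit
  set P' : E[X] := p.map (MvPolynomial.eval R) with hP'
  obtain ⟨Q, hQ, G, hG⟩ := exists_mult (K := K) P' (hp.map _)
  refine ⟨Q, hQ, fun v => ?_⟩
  obtain ⟨W, hW⟩ := exists_above v E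
  obtain ⟨q₀, hq₀, hq₀v⟩ := exists_small v (γ := 1) one_ne_zero
  have hqE : ∀ q : ℤ, (q : E) = algebraMap K E (q : K) := fun q => (map_intCast _ q).symm
  have hW1 : ∀ (a c : K), c ≠ 0 → W.valuation (algebraMap K E a) ≤ W.valuation (algebraMap K E c) →
      v.valuation K a ≤ v.valuation K c := by
    intro a c hc hac
    have hcW : 0 < W.valuation (algebraMap K E c) :=
      zero_lt_iff.2 ((Valuation.ne_zero_iff _).2 ((_root_.map_ne_zero _).2 hc))
    have h1 : algebraMap K E (a / c) ∈ W := by
      rw [← W.valuation_le_one_iff, map_div₀, map_div₀]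
      exact (div_le_one₀ hcW).2 hac
    have h2 := (hW _).1 h1
    rw [map_div₀] at h2
    exact (div_le_one₀ (zero_lt_iff.2 ((Valuation.ne_zero_iff _).2 hc))).1 h2
  have hq₁ : W.valuation (q₀ : E) < 1 := by
    by_contra hno
    push Not at hno
    have h1 := hW1 1 (q₀ : K) (Int.cast_ne_zero.2 hq₀) (by
      rw [map_one, map_one, ← hqE]
      exact hno)
    rw [map_one] at h1
    exact absurd hq₀v (not_lt.2 h1)
  -- the quotients are near `1`
  have hone : ∀ i (σ : K →+* E), One W l (fun j => σ ((P i).eval (y j) / b i j)) := by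
    intro i σ q hq
    filter_upwards [(hclose i q hq).filter_mono inf_le_left] with j hj
    have hqK : (q : K) ≠ 0 := Int.cast_ne_zero.2 hq
    obtain ⟨r, hr⟩ := HeightOneSpectrum.mem_integers_of_valuation_le_one (R := 𝓞 K) K
      (((P i).eval (y j) / b i j - 1) / q) (fun v => by
        rw [map_div₀]
        exact div_le_one_of_le₀ (hj v) zero_le)
    have e1 : σ ((P i).eval (y j) / b i j) - 1 = (q : E) * σ (algebraMap (𝓞 K) K r) := by
      rw [hr, ← map_one σ, ← map_sub, ← map_intCast σ, ← map_mul, mul_div_cancel₀ _ hqK]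
    rw [e1, map_mul]
    refine mul_le_of_le_one_right' ((W.valuation_le_one_iff _).2 ?_)
    exact int_mem W ((RingOfIntegers.isIntegral_coe r).map σ.toIntAlgHom)
  have hnz : ∀ᶠ j in l, ∀ i, (P i).eval (y j) ≠ 0 := by
    rw [Filter.eventually_all]
    intro i
    filter_upwards [(hclose i q₀ hq₀).filter_mono inf_le_left] with j hj h0
    have h1 := hj v
    rw [h0, zero_div, zero_sub, Valuation.map_neg, map_one] at h1
    exact absurd hq₀v (not_lt.2 h1)
  have hmon : ∀ q : A × I, Nul W l (fun j => mon E (m q.1) ((P q.2).eval (y j)) - R q) := by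
    rintro ⟨a, i⟩
    have h1 : One W l (fun j => mon E (m a) ((P i).eval (y j) / b i j)) :=
      One.prod Finset.univ fun σ _ => (hone i σ).zpow hq₀ hq₁ (m a σ)
    refine (Nul.mul_bd h1 (bd_const (R (a, i)))).congr ?_
    filter_upwards [hlJ] with j hj
    rw [sub_mul, one_mul, ← hRJ j hj a i, ← mon_mul, div_mul_cancel₀ _ (hb0 i j)]
  -- the points are bounded
  have hY : Bd W l (fun j => algebraMap K E (y j)) := by
    refine ⟨D, hD0, Eventually.of_forall fun j => ?_⟩
    rw [← map_mul, hqE, ← map_mul, W.valuation_le_one_iff, hW, map_mul]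
    exact hDy j v
  have hP0 : Nul W l (fun j => P'.eval (algebraMap K E (y j))) := by
    have h1 : Nul W l (fun j => ∑ k ∈ Finset.range (p.natDegree + 1),
        (MvPolynomial.eval (fun q : A × I => mon E (m q.1) ((P q.2).eval (y j))) (p.coeff k) -
          MvPolynomial.eval R (p.coeff k)) * algebraMap K E (y j) ^ k) :=
      Nul.sum _ fun k _ => Nul.mul_bd (nul_mv (fun (q : A × I) j => mon E (m q.1) ((P q.2).eval (y j)))
        R hmon (p.coeff k)) (hY.pow k)
    refine h1.neg.congr ?_
    filter_upwards [hnz] with j hj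
    have h2 := hp0 (fun σ => σ (y j)) (fun i σ => by
      rw [eval_map, eval₂_at_apply]
      exact (_root_.map_ne_zero σ).2 (hj i))
    have h3 : (fun q : A × I => ∏ σ : K →+* E, ((P q.2).map σ).eval (σ (y j)) ^ m q.1 σ) =
        fun q : A × I => mon E (m q.1) ((P q.2).eval (y j)) := by
      funext q
      unfold mon
      refine Finset.prod_congr rfl fun σ _ => ?_
      rw [eval_map, eval₂_at_apply]
    rw [h3, eval₂_eq_sum_range] at h2
    rw [hP', eval_map, eval₂_eq_sum_range]
    simp only [sub_mul, Finset.sum_sub_distrib]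
    rw [h2]
    ring
  have hQ0 : Nul W l (fun j => algebraMap K E (Q.eval (y j))) := by
    refine (hP0.mul_bd (hY.eval G)).congr (Eventually.of_forall fun j => ?_)
    rw [← eval_mul, ← hG, eval_map, eval₂_at_apply]
  -- conclusion
  have hT1 : Tendsto (fun j => Q.eval₂ (algebraMap K (v.adicCompletion K))
      (algebraMap K (v.adicCompletion K) (y j))) l
      (𝓝 (Q.eval₂ (algebraMap K (v.adicCompletion K)) (x v))) := by
    have h1 : Continuous fun z : v.adicCompletion K =>
        Q.eval₂ (algebraMap K (v.adicCompletion K)) z := Polynomial.continuous_eval₂ Q _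
    exact (h1.tendsto _).comp ((hlim v).mono_left inf_le_left)
  have hT2 : Tendsto (fun j => Q.eval₂ (algebraMap K (v.adicCompletion K))
      (algebraMap K (v.adicCompletion K) (y j))) l (𝓝 0) := by
    refine tendsto_zero_of_val v fun γ hγ => ?_
    obtain ⟨q, hq0, hq⟩ := exists_small v hγ
    filter_upwards [hQ0 q hq0] with j hj
    rw [eval₂_at_apply, val_K]
    refine lt_of_le_of_lt (hW1 _ _ (Int.cast_ne_zero.2 hq0) ?_) hq
    rw [← hqE]
    exact hj
  exact tendsto_nhds_unique hT1 hT2

end Pool.Agent.U36.CM
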