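import Pool.Agent.U36.CM.Comb

/-!
Integrality of the variables over monomials in the values of polynomials, by the valuative criterion,
and specialisation.
-/

set_option autoImplicit false
set_option linter.unusedSectionVars false

open Polynomial Finset

namespace Pool.Agent.U36.CM

section generic

variable {E κ S : Type} [Field E] [CommRing S] [IsDomain S]

/-- the valuative criterion for the image of a polynomial ring -/
theorem exists_monic (ψ : MvPolynomial κ E →+* S) (x : S)
    (key : ∀ V : ValuationSubring (FractionRing S),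
      (∀ z, algebraMap S (FractionRing S) (ψ z) ∈ V) → algebraMap S (FractionRing S) x ∈ V) :
    ∃ p : Polynomial (MvPolynomial κ E), p.Monic ∧ p.eval₂ ψ x = 0 := by
  set L := FractionRing S with hL
  set ψ' : MvPolynomial κ E →+* L := (algebraMap S L).comp ψ with hψ'
  have h1 : algebraMap S L x ∈
      (integralClosure (Subring.closure (ψ'.range : Set L)) L).toSubring := by
    rw [← iInf_valuationSubring_superset, Subring.mem_iInf]
    rintro ⟨V, hV⟩
    exact key V fun z => hV ⟨z, rfl⟩
  have h2 : IsIntegral (Subring.closure (ψ'.range : Set L)) (algebraMap S L x) := h1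
  rw [Subring.closure_eq] at h2
  obtain ⟨q, hq, hq0⟩ := h2
  have hsurj : Function.Surjective ψ'.rangeRestrict := ψ'.rangeRestrict_surjective
  obtain ⟨p, hp1, -, hp3⟩ := lifts_and_natDegree_eq_and_monic
    ((mem_lifts q).2 (Polynomial.map_surjective _ hsurj q)) hq
  refine ⟨p, hp3, ?_⟩
  have h3 : (algebraMap S L) (p.eval₂ ψ x) = 0 := by
    rw [hom_eval₂, ← hq0, ← hp1, eval₂_map]
    rfl
  exact (map_eq_zero_iff _ (IsFractionRing.injective S L)).1 h3

end generic

variable {E ι I A : Type} [Field E] [Fintype ι] [Fintype I]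

/-- The valuative condition: at all valuation rings of extensions of `E` which contain `E` the variable
`σ₀` has no pole, if the monomials with the exponents `m a` in the values of the polynomials `f i σ` at
the variables are integral. -/
def Crit (f : I → ι → E[X]) (m : A → ι → ℤ) (σ₀ : ι) : Prop :=
  ∀ (L : Type) [Field L] (V : ValuationSubring L) (γ : E →+* L) (x : ι → L),
    (∀ e, γ e ∈ V) → (∀ i σ, (f i σ).eval₂ γ (x σ) ≠ 0) →
    (∀ a i, ∏ σ, ((f i σ).eval₂ γ (x σ)) ^ m a σ ∈ V) → x σ₀ ∈ V

/-- One integral equation for all values of the variables. -/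
theorem exists_univ (f : I → ι → E[X]) (hf : ∀ i σ, 0 < (f i σ).natDegree)
    (m : A → ι → ℤ) (σ₀ : ι) (hcrit : Crit f m σ₀) :
    ∃ p : Polynomial (MvPolynomial (A × I) E), p.Monic ∧ ∀ y : ι → E,
      (∀ i σ, (f i σ).eval (y σ) ≠ 0) →
      p.eval₂ (MvPolynomial.eval fun q => ∏ σ, ((f q.2 σ).eval (y σ)) ^ m q.1 σ) (y σ₀) = 0 := by
  classical
  set R := MvPolynomial ι E with hR
  set g : I → ι → R := fun i σ => (f i σ).eval₂ MvPolynomial.C (MvPolynomial.X σ) with hg
  set D : R := ∏ i, ∏ σ, g i σ with hD
  have hgev : ∀ (y : ι → E) i σ, MvPolynomial.eval y (g i σ) = (f i σ).eval (y σ) := by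
    intro y i σ
    rw [hg]
    simp only
    rw [hom_eval₂, MvPolynomial.eval_X]
    have : (MvPolynomial.eval y).comp MvPolynomial.C = RingHom.id E := by
      ext e
      simp
    rw [this]
    rfl
  have hg0 : ∀ i σ, g i σ ≠ 0 := by
    intro i σ h0
    have h1 : Transcendental E (MvPolynomial.X σ : R) := MvPolynomial.transcendental_X E σ
    apply h1
    refine ⟨f i σ, fun h2 => ?_, h0⟩
    have := hf i σ
    rw [h2] at this
    simp at this
  have hD0 : D ≠ 0 := Finset.prod_ne_zero_iff.2 fun i _ => Finset.prod_ne_zero_iff.2 fun σ _ => hg0 i σ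
  set S := Localization.Away D with hS
  have hdom : IsDomain S := IsLocalization.isDomain_localization
    (powers_le_nonZeroDivisors_of_noZeroDivisors hD0)
  have hunit : ∀ i σ, IsUnit (algebraMap R S (g i σ)) := by
    intro i σ
    refine isUnit_of_dvd_unit (map_dvd (algebraMap R S) ?_) (IsLocalization.Away.algebraMap_isUnit D)
    exact (Finset.dvd_prod_of_mem _ (Finset.mem_univ σ)).trans
      (Finset.dvd_prod_of_mem (fun i => ∏ σ, g i σ) (Finset.mem_univ i))
  choose u hu using hunit
  set ψ : MvPolynomial (A × I) E →+* S := MvPolynomial.eval₂Hom ((algebraMap R S).comp MvPolynomial.C)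
    (fun q => ((∏ σ, u q.2 σ ^ m q.1 σ : Sˣ) : S)) with hψ
  obtain ⟨p, hp, hp0⟩ := exists_monic ψ (algebraMap R S (MvPolynomial.X σ₀)) (by
    intro V hV
    set L := FractionRing S with hL
    set γ : E →+* L := (algebraMap S L).comp ((algebraMap R S).comp MvPolynomial.C) with hγ
    set x : ι → L := fun σ => algebraMap S L (algebraMap R S (MvPolynomial.X σ)) with hx
    have hev : ∀ i σ, (f i σ).eval₂ γ (x σ) = algebraMap S L (u i σ : S) := by
      intro i σ
      rw [hu, hg, hγ, hx]
      simp only
      rw [hom_eval₂, hom_eval₂]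
    refine hcrit L V γ x ?_ ?_ ?_
    · intro e
      have h1 := hV (MvPolynomial.C e)
      rw [hψ, MvPolynomial.coe_eval₂Hom, MvPolynomial.eval₂_C] at h1
      exact h1
    · intro i σ
      rw [hev]
      exact (map_ne_zero_iff _ (IsFractionRing.injective S L)).2 (u i σ).ne_zero
    · intro a i
      have h1 := hV (MvPolynomial.X (a, i))
      rw [hψ, MvPolynomial.coe_eval₂Hom, MvPolynomial.eval₂_X] at h1
      have h2 : algebraMap S L ((∏ σ, u i σ ^ m a σ : Sˣ) : S) =
          ∏ σ, ((f i σ).eval₂ γ (x σ)) ^ m a σ := by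
        rw [Units.coe_prod, map_prod]
        refine Finset.prod_congr rfl fun σ _ => ?_
        rw [hev]
        have h3 := Units.coe_map (algebraMap S L : S →* L) (u i σ ^ m a σ)
        rw [map_zpow, Units.val_zpow_eq_zpow_val] at h3
        exact h3.symm
      rw [← h2]
      exact h1)
  refine ⟨p, hp, fun y hy => ?_⟩
  have hDy : IsUnit (MvPolynomial.eval y D) := by
    rw [isUnit_iff_ne_zero, hD, map_prod, Finset.prod_ne_zero_iff]
    intro i _
    rw [map_prod, Finset.prod_ne_zero_iff]
    intro σ _
    rw [hgev]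
    exact hy i σ
  set ev : S →+* E := IsLocalization.Away.lift D hDy with hevd
  have hev : ∀ r : R, ev (algebraMap R S r) = MvPolynomial.eval y r := fun r =>
    IsLocalization.Away.lift_eq D hDy r
  have h1 := congrArg ev hp0
  rw [map_zero, hom_eval₂, hev, MvPolynomial.eval_X] at h1
  rw [← h1]
  congr 1
  apply MvPolynomial.ringHom_ext
  · intro e
    rw [MvPolynomial.eval_C, RingHom.comp_apply, hψ, MvPolynomial.coe_eval₂Hom,
      MvPolynomial.eval₂_C, RingHom.comp_apply, hev, MvPolynomial.eval_C]
  · intro q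
    rw [MvPolynomial.eval_X, RingHom.comp_apply, hψ, MvPolynomial.coe_eval₂Hom,
      MvPolynomial.eval₂_X, Units.coe_prod, map_prod]
    refine Finset.prod_congr rfl fun σ _ => ?_
    have h3 := Units.coe_map (ev : S →* E) (u q.2 σ ^ m q.1 σ)
    rw [map_zpow, Units.val_zpow_eq_zpow_val] at h3
    have h4 : ((Units.map (ev : S →* E) (u q.2 σ) : Eˣ) : E) = (f q.2 σ).eval (y σ) := by
      change ev (u q.2 σ : S) = _
      rw [hu, hev, hgev]
    rw [h4] at h3
    exact h3

end Pool.Agent.U36.CM
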