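import Pool.Agent.U36.CM.Gen

/-!
Adelic points of the line minus sufficiently many closed points.
-/

set_option autoImplicit false
set_option linter.unusedSectionVars false

open IsDedekindDomain NumberField WithZero Polynomial Filter Topology

namespace Pool.Agent.U36.CM

open Pool.Agent.U36.BA

variable {K : Type} [Field K] [NumberField K]

/-- `n` is at least the degree of `K`, or `K` contains a CM field and `n` is at least half the degree
of `K` -/
def Enough (K : Type) [Field K] [NumberField K] (n : ℕ) : Prop :=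
  Module.finrank ℚ K ≤ n ∨ (Module.finrank ℚ K ≤ 2 * n ∧
    ∃ (E : Type) (_ : Field E) (_ : NumberField E) (_ : Algebra E K), IsCMField E)

theorem core_sq {I : Type} [Fintype I] (hI : Enough K (Fintype.card I)) (P : I → K[X])
    (hP : ∀ i, (P i).Monic) (hdeg : ∀ i, 0 < (P i).natDegree)
    (hcop : ∀ i j, i ≠ j → IsCoprime (P i) (P j))
    (x : ∀ v : HeightOneSpectrum (𝓞 K), v.adicCompletion K)
    (h : ∀ i, Sq (fun v => (P i).eval₂ (algebraMap K (v.adicCompletion K)) (x v))) :
    ∃ Q : K[X], Q.Monic ∧
      ∀ v : HeightOneSpectrum (𝓞 K), Q.eval₂ (algebraMap K (v.adicCompletion K)) (x v) = 0 := by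
  classical
  have hd : 0 < Module.finrank ℚ K := Module.finrank_pos
  have hne : Nonempty I := by
    rw [← Fintype.card_pos_iff]
    rcases hI with h1 | ⟨h1, -⟩ <;> omega
  have hcop' : ∀ i j (σ : K →+* AlgebraicClosure K), i ≠ j →
      IsCoprime ((P i).map σ) ((P j).map σ) := fun i j σ hij =>
    (hcop i j hij).map (mapRingHom σ)
  rcases hI with hI | ⟨hI, E, _, _, _, _⟩
  · refine core_gen P hP hdeg (A := Unit) (fun _ _ => 1) (fun _ => finite_norm) ?_ x h
    refine critA _ (fun i σ => (hP i).map σ) (fun i => (P i).natDegree) (fun i => (hdeg i).ne')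
      (fun i σ => (hP i).natDegree_map σ) hcop' ?_ _
    rw [NumberField.Embeddings.card]
    exact hI
  · refine core_gen P hP hdeg (A := Option (E →+* AlgebraicClosure K)) (mB (res E) (cj E))
      (finite_cm E) ?_ x h
    refine critB (res E) (cj E) (cj_ne E) (cj_cj E) (fun τ => by rw [blk_card, blk_card]) _
      (fun i σ => (hP i).map σ) (fun i => (P i).natDegree) (fun i => (hdeg i).ne')
      (fun i σ => (hP i).natDegree_map σ) hcop' ?_ _
    rw [NumberField.Embeddings.card]
    exact hI

theorem core_pol {I : Type} [Fintype I] (hI : Enough K (Fintype.card I)) (P : I → K[X])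
    (hP : ∀ i, (P i).Monic) (hdeg : ∀ i, 0 < (P i).natDegree)
    (hcop : ∀ i j, i ≠ j → IsCoprime (P i) (P j))
    (x : ∀ v : HeightOneSpectrum (𝓞 K), v.adicCompletion K) (B : ℕ)
    (h : ∀ i, Hyp (fun v => (P i).eval₂ (algebraMap K (v.adicCompletion K)) (x v)) B) :
    ∃ Q : K[X], Q.Monic ∧
      ∀ v : HeightOneSpectrum (𝓞 K), Q.eval₂ (algebraMap K (v.adicCompletion K)) (x v) = 0 :=
  core_sq hI P hP hdeg hcop x fun i => (h i).exists_seq

end Pool.Agent.U36.CM
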