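import Pool.Agent.U36.CM.Crit

/-!
The monomials take finitely many values on units.
-/

set_option autoImplicit false
set_option linter.unusedSectionVars false

open Finset NumberField

namespace Pool.Agent.U36.CM

variable {E K : Type} [Field E] [CharZero E] [IsAlgClosed E] [Field K] [NumberField K]

/-- the monomial with exponents `m` in the conjugates -/
noncomputable def mon (E : Type) {K : Type} [Field E] [CharZero E] [IsAlgClosed E] [Field K]
    [NumberField K] (m : (K →+* E) → ℤ) (x : K) : E := ∏ σ : K →+* E, σ x ^ m σ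

lemma mon_mul (m : (K →+* E) → ℤ) (x y : K) : mon E m (x * y) = mon E m x * mon E m y := by
  simp only [mon, map_mul, mul_zpow, Finset.prod_mul_distrib]

lemma mon_ne_zero (m : (K →+* E) → ℤ) {x : K} (hx : x ≠ 0) : mon E m x ≠ 0 :=
  Finset.prod_ne_zero_iff.2 fun σ _ => zpow_ne_zero _ ((_root_.map_ne_zero σ).2 hx)

theorem finite_norm : {z : E | ∃ u : (𝓞 K)ˣ, z = mon E (fun _ => 1) ((u : 𝓞 K) : K)}.Finite := by
  refine (Set.toFinite ({1, -1} : Set E)).subset ?_
  rintro z ⟨u, rfl⟩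
  have h1 : mon E (fun _ => 1) ((u : 𝓞 K) : K) =
      algebraMap ℚ E (Algebra.norm ℚ ((u : 𝓞 K) : K)) := by
    rw [Algebra.norm_eq_prod_embeddings, mon]
    simp only [zpow_one]
    exact Fintype.prod_equiv (RingHom.equivRatAlgHom K E) _ _ fun σ => rfl
  rw [h1, ← Algebra.coe_norm_int]
  rcases Int.isUnit_iff.1 ((u.isUnit).map (Algebra.norm ℤ : 𝓞 K →* ℤ)) with h | h
  · left
    rw [h]
    simp
  · right
    rw [h]
    simp

section cm

variable (E₀ : Type) [Field E₀] [NumberField E₀] [Algebra E₀ K]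

/-- restriction of embeddings -/
def res (σ : K →+* E) : E₀ →+* E := σ.comp (algebraMap E₀ K)

/-- the embeddings above `τ` -/
def blkEquiv (τ : E₀ →+* E) :
    letI := τ.toAlgebra
    {σ : K →+* E // res E₀ σ = τ} ≃ (K →ₐ[E₀] E) :=
  letI := τ.toAlgebra
  { toFun := fun σ => { toRingHom := σ.1, commutes' := fun x => RingHom.congr_fun σ.2 x }
    invFun := fun f => ⟨(f : K →+* E), RingHom.ext fun x => f.commutes x⟩
    left_inv := fun _ => rfl
    right_inv := fun _ => rfl }

open scoped Classical in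
lemma blk_card (τ : E₀ →+* E) :
    (univ.filter fun σ : K →+* E => res E₀ σ = τ).card = Module.finrank E₀ K := by
  let _ := τ.toAlgebra
  have : FiniteDimensional E₀ K := Module.Finite.of_restrictScalars_finite ℚ E₀ K
  rw [← AlgHom.card E₀ K E, ← Fintype.card_subtype]
  exact Fintype.card_congr (blkEquiv E₀ τ)

open scoped Classical in
lemma blk_norm (τ : E₀ →+* E) (x : K) :
    ∏ σ ∈ univ.filter (fun σ : K →+* E => res E₀ σ = τ), σ x = τ (Algebra.norm E₀ x) := by
  let _ := τ.toAlgebra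
  have : FiniteDimensional E₀ K := Module.Finite.of_restrictScalars_finite ℚ E₀ K
  have h1 : τ (Algebra.norm E₀ x) = algebraMap E₀ E (Algebra.norm E₀ x) := rfl
  rw [h1, Algebra.norm_eq_prod_embeddings]
  rw [Finset.prod_subtype (p := fun σ : K →+* E => res E₀ σ = τ) _ (fun σ => by simp)]
  exact Fintype.prod_equiv (blkEquiv E₀ τ) _ _ fun σ => rfl

variable [IsCMField E₀]

/-- the conjugate embedding -/
noncomputable def cj (τ : E₀ →+* E) : E₀ →+* E :=
  τ.comp ((IsCMField.complexConj E₀ : E₀ →+* E₀))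

lemma cj_cj (τ : E₀ →+* E) : cj E₀ (cj E₀ τ) = τ := by
  apply RingHom.ext
  intro x
  change τ (IsCMField.complexConj E₀ (IsCMField.complexConj E₀ x)) = τ x
  rw [IsCMField.complexConj_apply_apply]

lemma cj_ne (τ : E₀ →+* E) : cj E₀ τ ≠ τ := by
  intro h
  apply IsCMField.complexConj_ne_one E₀
  apply AlgEquiv.ext
  intro x
  apply τ.injective
  exact RingHom.congr_fun h x

open scoped Classical in
theorem finite_cm (a : Option (E₀ →+* E)) :
    {z : E | ∃ u : (𝓞 K)ˣ, z = mon E (mB (res E₀) (cj E₀) a) ((u : 𝓞 K) : K)}.Finite := by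
  rcases a with _ | τ
  · exact finite_norm
  · refine ((Set.finite_range fun ζ : Units.torsion E₀ => τ (((ζ : (𝓞 E₀)ˣ) : 𝓞 E₀) : E₀))).subset ?_
    rintro z ⟨u, rfl⟩
    set w : (𝓞 E₀)ˣ := Units.map (RingOfIntegers.norm E₀) u with hw
    refine ⟨IsCMField.unitsMulComplexConjInv E₀ w, ?_⟩
    have h1 : mon E (mB (res E₀) (cj E₀) (some τ)) ((u : 𝓞 K) : K) =
        τ (Algebra.norm E₀ ((u : 𝓞 K) : K)) / (cj E₀ τ) (Algebra.norm E₀ ((u : 𝓞 K) : K)) := by
      rw [mon, prod_mB (res E₀) (cj E₀) (cj_ne E₀) τ, blk_norm, blk_norm]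
    have hw1 : ((w : 𝓞 E₀) : E₀) = Algebra.norm E₀ ((u : 𝓞 K) : K) := rfl
    rw [h1, ← hw1]
    change τ _ = τ ((w : 𝓞 E₀) : E₀) / τ (IsCMField.complexConj E₀ ((w : 𝓞 E₀) : E₀))
    rw [← map_div₀]
    congr 1
    rw [IsCMField.unitsMulComplexConjInv_apply]
    simp
    rw [div_eq_mul_inv]

end cm

end Pool.Agent.U36.CM
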