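import Pool.Agent.U36.CM.Approx
import Pool.Agent.U36.CM.Units

/-!
Valuation rings of an algebraic closure above a place; null sequences.
-/

set_option autoImplicit false
set_option linter.unusedSectionVars false

open IsDedekindDomain NumberField WithZero Polynomial Filter Topology

namespace Pool.Agent.U36.CM

open Pool.Agent.U36.BA

section above

variable {K : Type} [Field K] [NumberField K] {E : Type} [Field E] [Algebra K E]

theorem exists_above (v : HeightOneSpectrum (𝓞 K)) (E : Type) [Field E] [Algebra K E] :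
    ∃ W : ValuationSubring E, ∀ a : K, algebraMap K E a ∈ W ↔ v.valuation K a ≤ 1 := by
  let O := (v.valuation K).valuationSubring
  obtain ⟨W, hW, hloc⟩ := IsLocalRing.exists_factor_valuationRing
    ((algebraMap K E).comp (O.subtype : O →+* K))
  refine ⟨W, fun a => ⟨fun ha => ?_, fun ha => hW ⟨a, ha⟩⟩⟩
  by_contra hlt
  push Not at hlt
  have ha0 : a ≠ 0 := by
    rintro rfl
    rw [map_zero] at hlt
    exact absurd hlt (not_lt.2 zero_le)
  have hinv : a⁻¹ ∈ O := by
    change v.valuation K a⁻¹ ≤ 1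
    rw [map_inv₀]
    exact inv_le_one_of_one_le₀ hlt.le
  have haE : algebraMap K E a ≠ 0 := (_root_.map_ne_zero _).2 ha0
  have hunit : IsUnit (((algebraMap K E).comp (O.subtype : O →+* K)).codRestrict W.toSubring hW
      ⟨a⁻¹, hinv⟩) := by
    refine isUnit_iff_exists_inv.2 ⟨⟨algebraMap K E a, ha⟩, Subtype.ext ?_⟩
    change algebraMap K E a⁻¹ * algebraMap K E a = 1
    rw [map_inv₀, inv_mul_cancel₀ haE]
  obtain ⟨⟨c, hc⟩, hc'⟩ := isUnit_iff_exists_inv.1 (hloc.map_nonunit _ hunit)
  have h1 : a⁻¹ * c = 1 := congrArg Subtype.val hc'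
  have h2 : c = a := by
    rw [inv_mul_eq_one₀ ha0] at h1
    exact h1.symm
  rw [h2] at hc
  exact absurd hc (not_le.2 hlt)

lemma int_mem (W : ValuationSubring E) {z : E} (hz : IsIntegral ℤ z) : z ∈ W := by
  have h3 : IsIntegral W z := hz.tower_top
  obtain ⟨y, hy⟩ := IsIntegrallyClosed.isIntegral_iff.1 h3
  rw [← hy]
  exact y.2

end above

section null

variable {E : Type} [Field E] [CharZero E] (W : ValuationSubring E) (l : Filter ℕ)

/-- null sequences -/
def Nul (z : ℕ → E) : Prop :=
  ∀ q : ℤ, q ≠ 0 → ∀ᶠ j in l, W.valuation (z j) ≤ W.valuation (q : E)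

/-- bounded sequences -/
def Bd (z : ℕ → E) : Prop :=
  ∃ q : ℤ, q ≠ 0 ∧ ∀ᶠ j in l, W.valuation (q : E) * W.valuation (z j) ≤ 1

variable {W l}

lemma valZ (q : ℤ) : W.valuation (q : E) ≤ 1 := by
  rw [W.valuation_le_one_iff]
  exact intCast_mem W q

lemma valZ_ne {q : ℤ} (hq : q ≠ 0) : W.valuation (q : E) ≠ 0 :=
  (Valuation.ne_zero_iff _).2 (Int.cast_ne_zero.2 hq)

lemma Nul.add {z w : ℕ → E} (hz : Nul W l z) (hw : Nul W l w) : Nul W l (fun j => z j + w j) := by
  intro q hq
  filter_upwards [hz q hq, hw q hq] with j h1 h2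
  exact (Valuation.map_add _ _ _).trans (max_le h1 h2)

lemma Nul.neg {z : ℕ → E} (hz : Nul W l z) : Nul W l (fun j => - z j) := by
  intro q hq
  filter_upwards [hz q hq] with j h1
  rwa [Valuation.map_neg]

lemma nul_zero : Nul W l (fun _ => 0) := by
  intro q _
  filter_upwards with j
  rw [map_zero]
  exact zero_le

lemma Nul.sum {ι : Type} (s : Finset ι) {z : ι → ℕ → E} (hz : ∀ i ∈ s, Nul W l (z i)) :
    Nul W l (fun j => ∑ i ∈ s, z i j) := by
  classical
  induction s using Finset.induction_on with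
  | empty => simpa using nul_zero
  | insert a s ha ih =>
    have h := (hz a (Finset.mem_insert_self _ _)).add
      (ih fun i hi => hz i (Finset.mem_insert_of_mem hi))
    refine (congrArg (Nul W l) (funext fun j => ?_)).mp h
    exact (Finset.sum_insert (f := fun i => z i j) ha).symm

lemma Nul.mul_bd {z w : ℕ → E} (hz : Nul W l z) (hw : Bd W l w) : Nul W l (fun j => z j * w j) := by
  obtain ⟨D, hD0, hD⟩ := hw
  intro q hq
  filter_upwards [hz (q * D) (mul_ne_zero hq hD0), hD] with j h1 h2
  rw [map_mul]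
  calc W.valuation (z j) * W.valuation (w j) ≤
        W.valuation ((q * D : ℤ) : E) * W.valuation (w j) := mul_le_mul_left h1 _
    _ = W.valuation (q : E) * (W.valuation (D : E) * W.valuation (w j)) := by
        rw [Int.cast_mul, map_mul, mul_assoc]
    _ ≤ W.valuation (q : E) := mul_le_of_le_one_right' h2

lemma Nul.bd {z : ℕ → E} (hz : Nul W l z) : Bd W l z :=
  ⟨1, one_ne_zero, by
    filter_upwards [hz 1 one_ne_zero] with j h1
    exact mul_le_one' (valZ 1) (h1.trans (valZ 1))⟩

lemma Bd.add {z w : ℕ → E} (hz : Bd W l z) (hw : Bd W l w) : Bd W l (fun j => z j + w j) := by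
  obtain ⟨D, hD0, hD⟩ := hz
  obtain ⟨D', hD0', hD'⟩ := hw
  refine ⟨D * D', mul_ne_zero hD0 hD0', ?_⟩
  filter_upwards [hD, hD'] with j h1 h2
  rw [Int.cast_mul, map_mul]
  refine (mul_le_mul_right (Valuation.map_add _ _ _) _).trans ?_
  rw [mul_max]
  refine max_le ?_ ?_
  · rw [mul_right_comm]
    exact mul_le_one' h1 (valZ _)
  · rw [mul_assoc]
    exact mul_le_one' (valZ _) h2

lemma Bd.mul {z w : ℕ → E} (hz : Bd W l z) (hw : Bd W l w) : Bd W l (fun j => z j * w j) := by
  obtain ⟨D, hD0, hD⟩ := hz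
  obtain ⟨D', hD0', hD'⟩ := hw
  refine ⟨D * D', mul_ne_zero hD0 hD0', ?_⟩
  filter_upwards [hD, hD'] with j h1 h2
  rw [Int.cast_mul, map_mul, map_mul, mul_mul_mul_comm]
  exact mul_le_one' h1 h2

lemma bd_const [Algebra ℚ E] [Algebra.IsAlgebraic ℚ E] (c : E) : Bd W l (fun _ => c) := by
  obtain ⟨D, hD0, h1⟩ := ((IsFractionRing.isAlgebraic_iff ℤ ℚ E (x := c)).2
    (Algebra.IsAlgebraic.isAlgebraic c)).exists_integral_multiple
  refine ⟨D, hD0, ?_⟩
  filter_upwards with j
  rw [zsmul_eq_mul] at h1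
  rw [← map_mul, W.valuation_le_one_iff]
  exact int_mem W h1

lemma Bd.pow [Algebra ℚ E] [Algebra.IsAlgebraic ℚ E] {z : ℕ → E} (hz : Bd W l z) (n : ℕ) :
    Bd W l (fun j => z j ^ n) := by
  induction n with
  | zero =>
    simp only [pow_zero]
    exact bd_const 1
  | succ n ih =>
    simp only [pow_succ]
    exact ih.mul hz

lemma Bd.eval [Algebra ℚ E] [Algebra.IsAlgebraic ℚ E] {z : ℕ → E} (hz : Bd W l z) (G : E[X]) :
    Bd W l (fun j => G.eval (z j)) := by
  induction G using Polynomial.induction_on' with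
  | add f g hf hg =>
    simp only [eval_add]
    exact hf.add hg
  | monomial n c =>
    simp only [eval_monomial]
    exact (bd_const c).mul (hz.pow n)

/-- continuity of polynomials -/
lemma nul_mv [Algebra ℚ E] [Algebra.IsAlgebraic ℚ E] {κ : Type} (z : κ → ℕ → E) (R : κ → E)
    (h : ∀ i, Nul W l (fun j => z i j - R i)) (c : MvPolynomial κ E) :
    Nul W l (fun j => MvPolynomial.eval (fun i => z i j) c - MvPolynomial.eval R c) := by
  induction c using MvPolynomial.induction_on with
  | C a =>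
    simp only [MvPolynomial.eval_C, sub_self]
    exact nul_zero
  | add f g hf hg =>
    refine (congrArg (Nul W l) (funext fun j => ?_)).mp (hf.add hg)
    rw [map_add, map_add]
    ring
  | mul_X f i hf =>
    have hz : Bd W l (z i) := by
      refine (congrArg (Bd W l) (funext fun j => ?_)).mp ((h i).bd.add (bd_const (R i)))
      ring
    refine (congrArg (Nul W l) (funext fun j => ?_)).mp
      ((hf.mul_bd hz).add ((h i).mul_bd (bd_const (MvPolynomial.eval R f))))
    rw [map_mul, map_mul, MvPolynomial.eval_X, MvPolynomial.eval_X]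
    ring

/-- sequences near `1` -/
def One (W : ValuationSubring E) (l : Filter ℕ) (u : ℕ → E) : Prop := Nul W l (fun j => u j - 1)

lemma One.mul [Algebra ℚ E] [Algebra.IsAlgebraic ℚ E] {u w : ℕ → E} (hu : One W l u)
    (hw : One W l w) : One W l (fun j => u j * w j) := by
  have hwb : Bd W l w := by
    refine (congrArg (Bd W l) (funext fun j => ?_)).mp ((Nul.bd hw).add (bd_const 1))
    ring
  refine (congrArg (Nul W l) (funext fun j => ?_)).mp ((Nul.mul_bd hu hwb).add hw)
  ring

lemma one_one : One W l (fun _ => 1) := by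
  refine (congrArg (Nul W l) (funext fun j => ?_)).mp nul_zero
  rw [sub_self]

lemma One.inv {q₀ : ℤ} (hq₀ : q₀ ≠ 0) (hq₁ : W.valuation (q₀ : E) < 1) {u : ℕ → E}
    (hu : One W l u) : One W l (fun j => (u j)⁻¹) := by
  intro q hq
  filter_upwards [hu q₀ hq₀, hu q hq] with j h1 h2
  have h3 : W.valuation (u j) = 1 := by
    have e : u j = 1 + (u j - 1) := by ring
    rw [e, Valuation.map_add_eq_of_lt_left, map_one]
    rw [map_one]
    exact h1.trans_lt hq₁
  have h4 : u j ≠ 0 := by
    intro h0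
    rw [h0, map_zero] at h3
    exact zero_ne_one h3
  have e : (u j)⁻¹ - 1 = - ((u j)⁻¹ * (u j - 1)) := by
    field_simp
    ring
  rw [e, Valuation.map_neg, map_mul, map_inv₀, h3, inv_one, one_mul]
  exact h2

lemma One.pow [Algebra ℚ E] [Algebra.IsAlgebraic ℚ E] {u : ℕ → E} (hu : One W l u) (n : ℕ) :
    One W l (fun j => u j ^ n) := by
  induction n with
  | zero =>
    simp only [pow_zero]
    exact one_one
  | succ n ih =>
    simp only [pow_succ]
    exact ih.mul hu

lemma One.zpow [Algebra ℚ E] [Algebra.IsAlgebraic ℚ E] {q₀ : ℤ} (hq₀ : q₀ ≠ 0)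
    (hq₁ : W.valuation (q₀ : E) < 1) {u : ℕ → E} (hu : One W l u) (n : ℤ) :
    One W l (fun j => u j ^ n) := by
  rcases n with n | n
  · simp only [Int.ofNat_eq_natCast, zpow_natCast]
    exact hu.pow n
  · simp only [zpow_negSucc]
    exact (hu.pow (n + 1)).inv hq₀ hq₁

lemma One.prod [Algebra ℚ E] [Algebra.IsAlgebraic ℚ E] {ι : Type} (s : Finset ι) {z : ι → ℕ → E}
    (hz : ∀ i ∈ s, One W l (z i)) : One W l (fun j => ∏ i ∈ s, z i j) := by
  classical
  induction s using Finset.induction_on with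
  | empty => simpa using one_one
  | insert a s ha ih =>
    have h := (hz a (Finset.mem_insert_self _ _)).mul
      (ih fun i hi => hz i (Finset.mem_insert_of_mem hi))
    refine (congrArg (One W l) (funext fun j => ?_)).mp h
    exact (Finset.prod_insert (f := fun i => z i j) ha).symm

end null

end Pool.Agent.U36.CM
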